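import Pool.Agent.R779.HK.Seq
import Pool.Agent.Y228.RR.Mot

set_option autoImplicit false
set_option linter.unusedSectionVars false
set_option linter.unusedVariables false

/-! # The chart at the general point of the divisor over the Hankel matrices of rank at most `d` -/

namespace Pool.Agent.R779.HK

open MvPowerSeries Pool.Agent.W574.SM Pool.Agent.Y231.RF

section Base

variable (N d c : ℕ) (lam : ℂ)

/-- the first `2 d` coordinates: free coordinates, with the base point `lam` at `d - 1` -/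
noncomputable def sS (k : ℕ) : MvPowerSeries (Fin N) ℂ :=
  if h : k < 2 * d ∧ k < N then C (if k + 1 = d then lam else 0) + X ⟨k, h.2⟩ else 0

theorem cc_sS (hN : 2 * d ≤ N) (k : ℕ) :
    constantCoeff (sS N d lam k) = if k + 1 = d then lam else 0 := by
  unfold sS
  by_cases h : k < 2 * d ∧ k < N
  · rw [dif_pos h]
    simp
  · rw [dif_neg h, map_zero, if_neg (by omega)]

theorem der_sS (t : Fin N) (ht : 2 * d ≤ (t : ℕ)) (k : ℕ) : pderiv ℂ t (sS N d lam k) = 0 := by
  unfold sS
  by_cases h : k < 2 * d ∧ k < N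
  · rw [dif_pos h, map_add, pderiv_C, zero_add, pderiv_X_of_ne]
    intro h1
    have := congrArg Fin.val h1
    simp only at this
    omega
  · rw [dif_neg h, map_zero]

/-- the leading Hankel matrix -/
noncomputable def HdM : Matrix (Fin d) (Fin d) (MvPowerSeries (Fin N) ℂ) :=
  Matrix.of fun i j => sS N d lam (i + j)

theorem detZ (h : lam ≠ 0) :
    (Matrix.of fun i j : Fin d => if (i : ℕ) + j + 1 = d then lam else 0).det ≠ 0 := by
  intro h0
  have h1 : (Matrix.of fun i j : Fin d => if (i : ℕ) + j + 1 = d then lam else 0) *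
      (Matrix.of fun i j : Fin d => if (i : ℕ) + j + 1 = d then lam else 0)
      = (lam * lam) • (1 : Matrix (Fin d) (Fin d) ℂ) := by
    ext i k
    have hi := i.2
    rw [Matrix.mul_apply, Finset.sum_eq_single (⟨d - 1 - i, by omega⟩ : Fin d)]
    · rw [Matrix.of_apply, Matrix.of_apply, Matrix.smul_apply, Matrix.one_apply]
      rw [if_pos (by simp only; omega)]
      by_cases h2 : i = k
      · subst h2
        rw [if_pos (by simp only; omega), if_pos rfl]
        simp
      · rw [if_neg, if_neg h2]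
        · simp
        · simp only
          intro h3
          exact h2 (Fin.ext (by omega))
    · intro j _ hj
      rw [Matrix.of_apply, if_neg, zero_mul]
      intro h3
      exact hj (Fin.ext (by simp only; omega))
    · intro h3; exact absurd (Finset.mem_univ _) h3
  have h2 := congrArg Matrix.det h1
  rw [Matrix.det_mul, h0, zero_mul, Matrix.det_smul, Matrix.det_one, mul_one] at h2
  exact pow_ne_zero _ (mul_ne_zero h h) h2.symm

theorem HdM_unit (hN : 2 * d ≤ N) (h : lam ≠ 0) : IsUnit (HdM N d lam).det := by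
  rw [MvPowerSeries.isUnit_iff_constantCoeff, RingHom.map_det]
  have h1 : (constantCoeff : MvPowerSeries (Fin N) ℂ →+* ℂ).mapMatrix (HdM N d lam)
      = Matrix.of fun i j : Fin d => if (i : ℕ) + j + 1 = d then lam else 0 := by
    ext i j
    rw [RingHom.mapMatrix_apply, Matrix.map_apply, HdM, Matrix.of_apply, cc_sS N d lam hN,
      Matrix.of_apply]
  rw [h1]
  exact isUnit_iff_ne_zero.2 (detZ d lam h)

/-- the coefficients of the recurrence -/
noncomputable def qv : Fin d → MvPowerSeries (Fin N) ℂ :=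
  (HdM N d lam)⁻¹.mulVec fun i => sS N d lam (d + i)

theorem HdM_qv (hN : 2 * d ≤ N) (h : lam ≠ 0) :
    (HdM N d lam).mulVec (qv N d lam) = fun i : Fin d => sS N d lam (d + i) := by
  rw [qv, Matrix.mulVec_mulVec, Matrix.mul_nonsing_inv _ (HdM_unit N d lam hN h),
    Matrix.one_mulVec]

theorem cc_qv (hN : 2 * d ≤ N) (m : Fin d) : constantCoeff (qv N d lam m) = 0 := by
  rw [qv, Matrix.mulVec, dotProduct, map_sum]
  refine Finset.sum_eq_zero fun i _ => ?_
  rw [map_mul, cc_sS N d lam hN, if_neg (by omega), mul_zero]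

theorem der_qv (hN : 2 * d ≤ N) (h : lam ≠ 0) (t : Fin N) (ht : 2 * d ≤ (t : ℕ)) (m : Fin d) :
    pderiv ℂ t (qv N d lam m) = 0 := by
  have h1 : (HdM N d lam).mulVec (fun m => pderiv ℂ t (qv N d lam m)) = 0 := by
    funext i
    have h2 := congrArg (pderiv ℂ t) (congrFun (HdM_qv N d lam hN h) i)
    rw [der_sS N d lam t ht, Matrix.mulVec, dotProduct, map_sum] at h2
    rw [Matrix.mulVec, dotProduct, Pi.zero_apply, ← h2]
    refine Finset.sum_congr rfl fun j _ => ?_
    rw [Derivation.leibniz, HdM, Matrix.of_apply, der_sS N d lam t ht, smul_zero, add_zero,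
      smul_eq_mul]
  have h3 := congrArg ((HdM N d lam)⁻¹.mulVec) h1
  rw [Matrix.mulVec_mulVec, Matrix.nonsing_inv_mul _ (HdM_unit N d lam hN h), Matrix.one_mulVec,
    Matrix.mulVec_zero] at h3
  exact congrFun h3 m

/-- the entries of the Hankel matrices of rank `d` -/
noncomputable def Rk (k : ℕ) : MvPowerSeries (Fin N) ℂ := rseq (qv N d lam) (sS N d lam) k

/-- the coefficients of the rows -/
noncomputable def Ak (m : Fin d) (k : ℕ) : MvPowerSeries (Fin N) ℂ := aseq (qv N d lam) m k

theorem Rk_factor (i j : ℕ) :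
    Rk N d lam (i + j) = ∑ m : Fin d, Ak N d lam m i * Rk N d lam (m + j) :=
  rseq_factor _ _ _ _

theorem Rk_init (hN : 2 * d ≤ N) (h : lam ≠ 0) {k : ℕ} (hk : k < 2 * d) :
    Rk N d lam k = sS N d lam k := by
  refine rseq_init _ _ (fun i => ?_) hk
  have h1 := congrFun (HdM_qv N d lam hN h) i
  rw [← h1, Matrix.mulVec, dotProduct]
  refine Finset.sum_congr rfl fun m _ => ?_
  rw [HdM, Matrix.of_apply, mul_comm]

theorem cc_Rk (hN : 2 * d ≤ N) (k : ℕ) :
    constantCoeff (Rk N d lam k) = if k + 1 = d then lam else 0 := by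
  rw [Rk, map_rseq _ _ (cc_qv N d lam hN), cc_sS N d lam hN]
  split_ifs <;> first | rfl | omega

theorem cc_Ak (hN : 2 * d ≤ N) (m : Fin d) (k : ℕ) :
    constantCoeff (Ak N d lam m k) = if k = m then 1 else 0 := by
  have := m.2
  rw [Ak, aseq, map_rseq _ _ (cc_qv N d lam hN)]
  by_cases h1 : k = m
  · rw [if_pos h1, if_pos h1, if_pos (by omega), map_one]
  · rw [if_neg h1, if_neg h1, map_zero, ite_self]

theorem der_Rk (hN : 2 * d ≤ N) (h : lam ≠ 0) (t : Fin N) (ht : 2 * d ≤ (t : ℕ)) (k : ℕ) :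
    pderiv ℂ t (Rk N d lam k) = 0 :=
  der_rseq _ _ (der_qv N d lam hN h t ht) _ (fun k _ => der_sS N d lam t ht k) k

theorem der_Ak (hN : 2 * d ≤ N) (h : lam ≠ 0) (t : Fin N) (ht : 2 * d ≤ (t : ℕ)) (m : Fin d)
    (k : ℕ) : pderiv ℂ t (Ak N d lam m k) = 0 := by
  refine der_rseq _ _ (der_qv N d lam hN h t ht) _ (fun k _ => ?_) k
  split_ifs
  · exact Derivation.map_one_eq_zero _
  · exact map_zero _

/-- the coordinates on the exceptional divisor -/
noncomputable def wS (k : ℕ) : MvPowerSeries (Fin N) ℂ :=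
  if k = 2 * d + c then 1 else if h : 2 * d ≤ k ∧ k < N then X ⟨k, h.2⟩ else 0

theorem cc_wS (k : ℕ) : constantCoeff (wS N d c k) = if k = 2 * d + c then 1 else 0 := by
  unfold wS
  split_ifs <;> simp

theorem wS_small {k : ℕ} (hk : k < 2 * d) : wS N d c k = 0 := by
  rw [wS, if_neg (by omega), dif_neg (by omega)]

theorem wS_z : wS N d c (2 * d + c) = 1 := if_pos rfl

theorem wS_other {k : Fin N} (hk : 2 * d ≤ (k : ℕ)) (hk' : (k : ℕ) ≠ 2 * d + c) :
    wS N d c k = X k := by
  rw [wS, if_neg hk', dif_pos ⟨hk, k.2⟩]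

theorem der_wS (t : Fin N) (ht : 2 * d ≤ (t : ℕ)) (ht' : (t : ℕ) ≠ 2 * d + c) (k : ℕ) :
    pderiv ℂ t (wS N d c k) = if k = t then 1 else 0 := by
  unfold wS
  by_cases h1 : k = 2 * d + c
  · rw [if_pos h1, if_neg (by omega)]
    exact Derivation.map_one_eq_zero _
  rw [if_neg h1]
  by_cases h2 : 2 * d ≤ k ∧ k < N
  · rw [dif_pos h2]
    by_cases h3 : k = t
    · rw [if_pos h3]
      have h4 : (⟨k, h2.2⟩ : Fin N) = t := Fin.ext h3
      rw [h4, pderiv_X_self]
    · rw [if_neg h3, pderiv_X_of_ne]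
      intro h4
      exact h3 (congrArg Fin.val h4)
  · rw [dif_neg h2, map_zero, if_neg]
    intro h3
    exact h2 ⟨by omega, by have := t.2; omega⟩

theorem der_wS_z (hc : 2 * d + c < N) (k : ℕ) :
    pderiv ℂ (⟨2 * d + c, hc⟩ : Fin N) (wS N d c k) = 0 := by
  unfold wS
  by_cases h1 : k = 2 * d + c
  · rw [if_pos h1]
    exact Derivation.map_one_eq_zero _
  rw [if_neg h1]
  by_cases h2 : 2 * d ≤ k ∧ k < N
  · rw [dif_pos h2, pderiv_X_of_ne]
    intro h4
    exact h1 (congrArg Fin.val h4)
  · rw [dif_neg h2, map_zero]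

variable (hc : 2 * d + c < N)

/-- the chart -/
noncomputable def xi (k : Fin N) : MvPowerSeries (Fin N) ℂ :=
  Rk N d lam k + X (⟨2 * d + c, hc⟩ : Fin N) * wS N d c k

/-- the order of the coordinates -/
def ord (t : Fin N) : ℕ := if (t : ℕ) < 2 * d then t else if (t : ℕ) = 2 * d + c then 2 * d
  else t + 1

theorem ord_inj : Function.Injective (ord N d c) := by
  intro s t h
  unfold ord at h
  refine Fin.ext ?_
  split_ifs at h <;> omega

theorem xi_small (h : lam ≠ 0) {k : Fin N} (hk : (k : ℕ) < 2 * d) :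
    xi N d c lam hc k = C (if (k : ℕ) + 1 = d then lam else 0) + X k := by
  rw [xi, wS_small N d c hk, mul_zero, add_zero, Rk_init N d lam (by omega) h hk, sS,
    dif_pos ⟨hk, k.2⟩]

theorem jac_entry (h : lam ≠ 0) (t i : Fin N) (hlt : ord N d c i < ord N d c t) :
    pderiv ℂ t (xi N d c lam hc i) = 0 := by
  by_cases hi : (i : ℕ) < 2 * d
  · rw [xi_small N d c lam hc h hi, map_add, pderiv_C, zero_add, pderiv_X_of_ne]
    rintro rfl
    exact lt_irrefl _ hlt
  · have ht : 2 * d ≤ (t : ℕ) := by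
      unfold ord at hlt
      split_ifs at hlt <;> omega
    rw [xi, map_add, der_Rk N d lam (by omega) h t ht, zero_add, Derivation.leibniz]
    have htz : (t : ℕ) ≠ 2 * d + c := by
      unfold ord at hlt
      split_ifs at hlt <;> omega
    have hti : (i : ℕ) ≠ t := by
      intro h1
      rw [Fin.ext h1] at hlt
      exact lt_irrefl _ hlt
    rw [der_wS N d c t ht htz, if_neg hti, smul_zero, zero_add, pderiv_X_of_ne, smul_zero]
    intro h1
    exact htz (congrArg Fin.val h1).symm

theorem jac_diag (h : lam ≠ 0) (t : Fin N) :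
    pderiv ℂ t (xi N d c lam hc t) = if 2 * d ≤ (t : ℕ) ∧ (t : ℕ) ≠ 2 * d + c then
      X (⟨2 * d + c, hc⟩ : Fin N) else 1 := by
  by_cases ht : (t : ℕ) < 2 * d
  · rw [xi_small N d c lam hc h ht, map_add, pderiv_C, zero_add, pderiv_X_self, if_neg (by omega)]
  · rw [xi, map_add, der_Rk N d lam (by omega) h t (by omega), zero_add, Derivation.leibniz]
    by_cases htz : (t : ℕ) = 2 * d + c
    · have h1 : t = (⟨2 * d + c, hc⟩ : Fin N) := Fin.ext htz
      rw [if_neg (by omega), h1, der_wS_z, smul_zero, zero_add, pderiv_X_self]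
      simp only
      rw [wS_z, smul_eq_mul, mul_one]
    · rw [if_pos (by omega), der_wS N d c t (by omega) htz, if_pos rfl, smul_eq_mul, mul_one,
        pderiv_X_of_ne, smul_zero, add_zero]
      intro h1
      exact htz (congrArg Fin.val h1).symm

theorem card_rest (hc : 2 * d + c < N) : (Finset.univ.filter fun t : Fin N => 2 * d ≤ (t : ℕ) ∧ (t : ℕ) ≠ 2 * d + c).card
    = N - 2 * d - 1 := by
  have h1 : (Finset.univ.filter fun t : Fin N => 2 * d ≤ (t : ℕ) ∧ (t : ℕ) ≠ 2 * d + c)
      = (Finset.univ.filter fun t : Fin N => 2 * d ≤ (t : ℕ)).erase ⟨2 * d + c, hc⟩ := by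
    ext t
    simp only [Finset.mem_filter, Finset.mem_univ, true_and, Finset.mem_erase, ne_eq, Fin.ext_iff]
    tauto
  rw [h1, Finset.card_erase_of_mem]
  · congr 1
    have h2 := Finset.card_filter_add_card_filter_not (s := (Finset.univ : Finset (Fin N)))
      (fun t : Fin N => (t : ℕ) < 2 * d)
    have h3 : (Finset.univ.filter fun t : Fin N => (t : ℕ) < 2 * d).card = 2 * d := by
      rw [Fin.card_filter_val_lt]
      exact min_eq_right (by omega)
    have h4 : (Finset.univ.filter fun t : Fin N => ¬ (t : ℕ) < 2 * d)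
        = Finset.univ.filter fun t : Fin N => 2 * d ≤ (t : ℕ) := by
      refine Finset.filter_congr fun t _ => not_lt
    rw [h4, h3, Finset.card_univ, Fintype.card_fin] at h2
    omega
  · simp only [Finset.mem_filter, Finset.mem_univ, true_and]
    omega

theorem jacobian (h : lam ≠ 0) :
    (Matrix.of fun t i => pderiv ℂ t (xi N d c lam hc i)).det
      = X (⟨2 * d + c, hc⟩ : Fin N) ^ (N - 2 * d - 1) := by
  rw [det_upper (Matrix.of fun t i => pderiv ℂ t (xi N d c lam hc i)) (ord N d c)
    (ord_inj N d c) fun i j hij => jac_entry N d c lam hc h i j hij]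
  simp only [Matrix.of_apply, jac_diag N d c lam hc h]
  rw [Finset.prod_ite, Finset.prod_const, Finset.prod_const_one, mul_one, card_rest N d c hc]

end Base

end Pool.Agent.R779.HK
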