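import Pool.Agent.R779.HK.Minors

set_option autoImplicit false
set_option linter.unusedSectionVars false
set_option linter.unusedVariables false

/-! # Hankel determinantal ideals: the Rees divisors -/

namespace Pool.Agent.R779.HK

open MvPowerSeries Pool.Agent.W574.SM Pool.Agent.Y231.RF Pool.Agent.Y228.RR Pool.Agent.TH192.DT
  Pool.Agent.H628R4.TP Pool.Agent.W574.HS Pool.Agent.W574.LM

/-- the places of the new columns -/
theorem place (N d c p t : ℕ) (hdp : d < p) (hpc : p ≤ d + c) (hpN : p + d + c + 1 ≤ N)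
    (ht : 2 * d ≤ t) (htN : t < N) (htz : t ≠ 2 * d + c) :
    ∃ a j' : ℕ, a < p ∧ d ≤ a ∧ j' < N + 1 - p ∧ d ≤ j' ∧
      (∀ i, d ≤ i → i < p → i + j' ≠ 2 * d + c) ∧ a + j' = t := by
  rcases lt_or_gt_of_ne htz with h | h
  · by_cases h2 : t + p ≤ 3 * d + c
    · exact ⟨d, t - d, by omega, by omega, by omega, by omega, fun i h3 h4 => by omega, by omega⟩
    · exact ⟨t - (2 * d + c - p), 2 * d + c - p, by omega, by omega, by omega, by omega,
        fun i h3 h4 => by omega, by omega⟩
  · by_cases h2 : t ≤ d + p + c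
    · exact ⟨t - (d + c + 1), d + c + 1, by omega, by omega, by omega, by omega,
        fun i h3 h4 => by omega, by omega⟩
    · exact ⟨p - 1, t + 1 - p, by omega, by omega, by omega, by omega,
        fun i h3 h4 => by omega, by omega⟩

section Attained

variable (N d c : ℕ) (lam : ℂ) (hc : 2 * d + c < N)

theorem cc_xi (hN : 2 * d ≤ N) (k : Fin N) :
    constantCoeff (xi N d c lam hc k) = if (k : ℕ) + 1 = d then lam else 0 := by
  rw [xi, map_add, map_mul, constantCoeff_X, zero_mul, add_zero, cc_Rk N d lam hN]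

/-- the columns `J0` -/
noncomputable def J0f {p : ℕ} (hdp : d < p) (hpc : p ≤ d + c) (hpN : p + d + c + 1 ≤ N) :
    Fin p → Fin (N + 1 - p) :=
  fun j => ⟨J0 d c j, by have := j.2; unfold J0; split_ifs <;> omega⟩

theorem J0f_inj {p : ℕ} (hdp : d < p) (hpc : p ≤ d + c) (hpN : p + d + c + 1 ≤ N) :
    Function.Injective (J0f N d c hdp hpc hpN) := by
  intro i j h
  have h1 := congrArg Fin.val h
  have hi := i.2
  have hj := j.2
  simp only [J0f, J0] at h1
  refine Fin.ext ?_
  split_ifs at h1 <;> omega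

/-- the generator of minimal order, large minors -/
theorem attained_large {p : ℕ} (hdp : d < p) (hpc : p ≤ d + c) (hpN : p + d + c + 1 ≤ N)
    (hl : lam ≠ 0) :
    ∃ (j0 : HIdx N p) (e : ℂ), e * e = 1 ∧
      hmin N (J0f N d c hdp hpc hpN) = e • hankel N p j0 ∧
      ∃ U : MvPowerSeries (Fin N) ℂ, constantCoeff U ≠ 0 ∧
        MvPolynomial.aeval (xi N d c lam hc) (hankel N p j0)
          = X (⟨2 * d + c, hc⟩ : Fin N) ^ (p - d) * U := by
  obtain ⟨j0, e, he, h1⟩ := hmin_sort _ (J0f_inj N d c hdp hpc hpN)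
  refine ⟨j0, e, he, h1, e • (MJ N d c lam hc (p := p) fun j => J0 d c j).det, ?_, ?_⟩
  · rw [smul_eq_C_mul, map_mul, constantCoeff_C]
    refine mul_ne_zero ?_ (cc_det_ne N d c lam hc hpc hdp.le (by omega) hl)
    rintro rfl
    rw [zero_mul] at he
    exact zero_ne_one he
  · have h2 := minor_eq N d c lam hc (q := p - d) (p := p) (by omega) (J0f N d c hdp hpc hpN)
    rw [h1, map_smul] at h2
    have h3 := congrArg (fun f => e • f) h2
    simp only [smul_smul, he, one_smul] at h3
    rw [h3, mul_smul_comm]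
    rfl

/-- the generator of minimal order, small minors -/
theorem attained_small {p : ℕ} (hdp : p ≤ d) (hl : lam ≠ 0) :
    ∃ (j0 : HIdx N p) (U : MvPowerSeries (Fin N) ℂ), constantCoeff U ≠ 0 ∧
        MvPolynomial.aeval (xi N d c lam hc) (hankel N p j0)
          = X (⟨2 * d + c, hc⟩ : Fin N) ^ (p - d) * U := by
  have hinj : Function.Injective (fun j : Fin p =>
      (⟨d - 1 - j, by have := j.2; omega⟩ : Fin (N + 1 - p))) := by
    intro i j h
    have h1 := congrArg Fin.val h
    have hi := i.2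
    have hj := j.2
    simp only at h1
    exact Fin.ext (by omega)
  obtain ⟨j0, e, he, h1⟩ := hmin_sort _ hinj
  refine ⟨j0, MvPolynomial.aeval (xi N d c lam hc) (hankel N p j0), ?_, ?_⟩
  · have h2 := congrArg (fun f => constantCoeff (MvPolynomial.aeval (xi N d c lam hc) f)) h1
    simp only [aeval_hmin, map_smul] at h2
    rw [RingHom.map_det] at h2
    have h3 : (constantCoeff : MvPowerSeries (Fin N) ℂ →+* ℂ).mapMatrix
        (Matrix.of fun i j : Fin p => xi N d c lam hc (⟨(i : ℕ) + (d - 1 - (j : ℕ)), by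
          have := i.2; have := j.2; omega⟩ : Fin N)) = Matrix.diagonal fun _ => lam := by
      ext i j
      have hi := i.2
      have hj := j.2
      rw [RingHom.mapMatrix_apply, Matrix.map_apply, Matrix.of_apply, cc_xi N d c lam hc (by omega),
        Matrix.diagonal_apply]
      simp only
      by_cases h4 : i = j
      · subst h4
        rw [if_pos (by omega), if_pos rfl]
      · rw [if_neg h4, if_neg]
        intro h5
        exact h4 (Fin.ext (by omega))
    rw [h3, Matrix.det_diagonal, Finset.prod_const, Finset.card_univ, Fintype.card_fin] at h2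
    intro h4
    rw [smul_eq_C_mul, map_mul, h4, mul_zero] at h2
    exact pow_ne_zero _ hl h2
  · rw [Nat.sub_eq_zero_of_le hdp, pow_zero, one_mul]

theorem divides_all {p : ℕ} (J : HIdx N p) :
    X (⟨2 * d + c, hc⟩ : Fin N) ^ (p - d) ∣ MvPolynomial.aeval (xi N d c lam hc) (hankel N p J) := by
  by_cases h : d ≤ p
  · rw [hankel, minor_eq N d c lam hc (q := p - d) (p := p) (by omega)]
    exact dvd_mul_right _ _
  · rw [Nat.sub_eq_zero_of_le (by omega), pow_zero]
    exact one_dvd _

/-- the quotients of the minors -/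
theorem quotient {p : ℕ} (hdp : d < p) (hpc : p ≤ d + c) (hpN : p + d + c + 1 ≤ N)
    (hl : lam ≠ 0) (j0 : HIdx N p) (e : ℂ) (he : e * e = 1)
    (h0 : hmin N (J0f N d c hdp hpc hpN) = e • hankel N p j0) (a : Fin p) (j' : ℕ)
    (hj' : j' < N + 1 - p) :
    ∃ v : HIdx N p → ℂ, ∑ j, v j • MvPolynomial.aeval (xi N d c lam hc) (hankel N p j)
      = MvPolynomial.aeval (xi N d c lam hc) (hankel N p j0) *
        yq N d c lam hc p j' (Sum.inr a) := by
  obtain ⟨v, hv⟩ := hmin_span (Function.update (J0f N d c hdp hpc hpN) a ⟨j', hj'⟩)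
  refine ⟨fun j => e * v j, ?_⟩
  have h1 := minor_eq N d c lam hc (q := p - d) (p := p) (by omega) (J0f N d c hdp hpc hpN)
  have h2 := minor_eq N d c lam hc (q := p - d) (p := p) (by omega)
    (Function.update (J0f N d c hdp hpc hpN) a ⟨j', hj'⟩)
  have h3 : (fun j => ((Function.update (J0f N d c hdp hpc hpN) a ⟨j', hj'⟩) j : ℕ))
      = Function.update (fun j : Fin p => J0 d c j) a j' := by
    funext j
    by_cases h : j = a
    · subst h
      rw [Function.update_self, Function.update_self]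
    · rw [Function.update_of_ne h, Function.update_of_ne h]
      rfl
  rw [h3, yq_quot N d c lam hc a j' hpc hdp.le (by omega) hl, ← mul_assoc] at h2
  have h4 : (MJ N d c lam hc fun j => ((J0f N d c hdp hpc hpN j : Fin (N + 1 - p)) : ℕ))
      = MJ N d c lam hc (p := p) fun j => J0 d c j := rfl
  rw [h4] at h1
  rw [← h1, h0, hv, map_sum, map_smul] at h2
  have h5 := congrArg (fun f => e • f) h2
  simp only [map_smul, Finset.smul_sum, smul_smul, smul_mul_assoc, he, one_smul] at h5
  exact h5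

end Attained

section Chart

variable {T : Type} [Fintype T] [DecidableEq T]

/-- The charts. -/
theorem chart_exists (N d : ℕ) (p a : T → ℕ) (hp : ∀ t, 2 * p t < N) (t0 : T) (ha : a t0 ≠ 0)
    (hd : d < p t0) (lam : ℂ) (hl : lam ≠ 0) :
    ∃ E : Chart (fun t => hankel N (p t)), E.k = N - 2 * d - 1 ∧ E.m = (fun t => p t - d) ∧
      (E.IsRees fun t => a t ≠ 0) ∧
      (∀ k, constantCoeff (E.ξ k) = if (k : ℕ) + 1 = d then lam else 0) ∧
      ∃ (P : MvPolynomial (Fin N) ℂ) (U : MvPowerSeries (Fin N) ℂ), constantCoeff U ≠ 0 ∧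
        MvPolynomial.aeval E.ξ P = X E.z * U := by
  classical
  obtain ⟨t1, -, ht1⟩ := Finset.exists_max_image Finset.univ p ⟨t0, Finset.mem_univ _⟩
  have ht1' : ∀ t, p t ≤ p t1 := fun t => ht1 t (Finset.mem_univ _)
  obtain ⟨c, hcdef⟩ : ∃ c, p t1 = d + c := ⟨p t1 - d, by have := ht1' t0; omega⟩
  have h01 := ht1' t0
  have hN1 := hp t1
  have hc : 2 * d + c < N := by omega
  have hN : 2 * d ≤ N := by omega
  have hpc : ∀ t, p t ≤ d + c := fun t => by have := ht1' t; omega
  have hpN : ∀ t, p t + d + c + 1 ≤ N := fun t => by have := ht1' t; omega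
  have hatt : ∀ t, ∃ (j0 : HIdx N (p t)) (U : MvPowerSeries (Fin N) ℂ), constantCoeff U ≠ 0 ∧
      MvPolynomial.aeval (xi N d c lam hc) (hankel N (p t) j0)
        = X (⟨2 * d + c, hc⟩ : Fin N) ^ (p t - d) * U ∧
      ∀ h : d < p t, ∃ e : ℂ, e * e = 1 ∧
        hmin N (J0f N d c h (hpc t) (hpN t)) = e • hankel N (p t) j0 := by
    intro t
    by_cases h : d < p t
    · obtain ⟨j0, e, he, h1, U, hU, h2⟩ := attained_large N d c lam hc h (hpc t) (hpN t) hl
      exact ⟨j0, U, hU, h2, fun _ => ⟨e, he, h1⟩⟩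
    · obtain ⟨j0, U, hU, h2⟩ := attained_small N d c lam hc (not_lt.1 h) hl
      exact ⟨j0, U, hU, h2, fun h' => absurd h' h⟩
  choose j0 U hU hval hsort using hatt
  let E : Chart (fun t => hankel N (p t)) :=
    { z := ⟨2 * d + c, hc⟩
      ξ := xi N d c lam hc
      k := N - 2 * d - 1
      m := fun t => p t - d
      j0 := j0
      jacobian := ⟨1, by rw [map_one]; exact one_ne_zero, by
        rw [mul_one]; exact jacobian N d c lam hc hl⟩
      divides := fun t j => divides_all N d c lam hc j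
      attained := fun t => ⟨U t, hU t, hval t⟩ }
  refine ⟨E, rfl, rfl, ?_, fun k => cc_xi N d c lam hc hN k, ?_⟩
  swap
  · obtain ⟨j1, _, _, _, U1, hU1, h1⟩ := attained_large N d c lam hc (p := d + 1) (by omega)
      (by omega) (by omega) hl
    refine ⟨_, U1, hU1, h1.trans ?_⟩
    rw [Nat.add_sub_cancel_left, pow_one]
  obtain ⟨e, he, hJ0⟩ := hsort t0 hd
  have hpl := fun (t : Fin N) (ht : 2 * d ≤ (t : ℕ) ∧ (t : ℕ) ≠ 2 * d + c) =>
    place N d c (p t0) t hd (hpc t0) (hpN t0) ht.1 t.2 ht.2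
  choose! av jv hav hav' hjv hjv' hjv2 hsum using hpl
  refine ⟨fun t => if h : 2 * d ≤ (t : ℕ) ∧ (t : ℕ) ≠ 2 * d + c then
    yq N d c lam hc (p t0) (jv t) (Sum.inr ⟨av t, hav t h⟩) else X t, ?_, ?_, ?_, ?_⟩
  · change dite _ _ _ = _
    rw [dif_neg]
    exact fun h => h.2 rfl
  · intro t
    simp only
    split_ifs with h
    · exact cc_yq N d c lam hc (jv t) (hpc t0) hd.le hN hl (hjv' t h) (hjv2 t h) _
    · exact constantCoeff_X _
  · rw [det_upper _ (ord N d c) (ord_inj N d c)]
    · rw [Finset.prod_eq_one]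
      · exact one_ne_zero
      · intro t _
        simp only [Matrix.of_apply]
        split_ifs with h
        · rw [der_yq N d c lam hc (jv t) (hpc t0) hd.le hN hl (hjv' t h) (hjv2 t h)
            ⟨av t, hav t h⟩ (hav' t h) t h.1 h.2, if_pos (hsum t h)]
        · rw [pderiv_X_self, map_one]
    · intro s t hst
      simp only [Matrix.of_apply]
      split_ifs with h
      · have hs : 2 * d ≤ (s : ℕ) ∧ (s : ℕ) ≠ 2 * d + c := by
          unfold ord at hst
          split_ifs at hst <;> omega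
        rw [der_yq N d c lam hc (jv t) (hpc t0) hd.le hN hl (hjv' t h) (hjv2 t h)
            ⟨av t, hav t h⟩ (hav' t h) s hs.1 hs.2, if_neg]
        simp only
        rw [hsum t h]
        intro h1
        rw [Fin.ext h1] at hst
        exact lt_irrefl _ hst
      · rw [pderiv_X_of_ne, map_zero]
        rintro rfl
        exact lt_irrefl _ hst
  · intro t ht
    have htz : (t : ℕ) ≠ 2 * d + c := fun h => ht (Fin.ext h)
    by_cases h : 2 * d ≤ (t : ℕ)
    · right
      obtain ⟨v, hv⟩ := quotient N d c lam hc hd (hpc t0) (hpN t0) hl (j0 t0) e he hJ0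
        ⟨av t, hav t ⟨h, htz⟩⟩ (jv t) (hjv t ⟨h, htz⟩)
      refine ⟨t0, ha, v, ?_⟩
      simp only [dif_pos (show 2 * d ≤ (t : ℕ) ∧ (t : ℕ) ≠ 2 * d + c from ⟨h, htz⟩)]
      exact hv
    · left
      refine ⟨MvPolynomial.X t - MvPolynomial.C (if (t : ℕ) + 1 = d then lam else 0), ?_⟩
      simp only [dif_neg (show ¬ (2 * d ≤ (t : ℕ) ∧ (t : ℕ) ≠ 2 * d + c) from fun h' => h h'.1)]
      rw [map_sub, MvPolynomial.aeval_X, MvPolynomial.aeval_C]
      change xi N d c lam hc t - _ = _
      rw [xi_small N d c lam hc hl (by omega)]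
      change C _ + X t - C _ = X t
      rw [add_sub_cancel_left]

theorem cc_aeval {σ : Type} (ξ : σ → MvPowerSeries σ ℂ) (H : MvPolynomial σ ℂ) :
    constantCoeff (MvPolynomial.aeval ξ H) = MvPolynomial.eval (fun k => constantCoeff (ξ k)) H := by
  induction H using MvPolynomial.induction_on with
  | C a =>
    rw [MvPolynomial.aeval_C, MvPolynomial.eval_C]
    exact constantCoeff_C a
  | add p q hp hq => rw [map_add, map_add, map_add, hp, hq]
  | mul_X p i hp => rw [map_mul, map_mul, map_mul, hp, MvPolynomial.aeval_X, MvPolynomial.eval_X]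

/-- a good base point -/
theorem exists_lam (N d : ℕ) (H : MvPolynomial (Fin N) ℂ) (hH : MvPolynomial.constantCoeff H ≠ 0) :
    ∃ lam : ℂ, lam ≠ 0 ∧
      MvPolynomial.eval (fun k : Fin N => if (k : ℕ) + 1 = d then lam else 0) H ≠ 0 := by
  set P : Polynomial ℂ := MvPolynomial.aeval
    (fun k : Fin N => if (k : ℕ) + 1 = d then (Polynomial.X : Polynomial ℂ) else 0) H with hP
  have hev : ∀ x : ℂ, P.eval x
      = MvPolynomial.eval (fun k : Fin N => if (k : ℕ) + 1 = d then x else 0) H := by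
    intro x
    rw [hP]
    have h1 : (Polynomial.evalRingHom x).comp (MvPolynomial.aeval
        (fun k : Fin N => if (k : ℕ) + 1 = d then (Polynomial.X : Polynomial ℂ) else 0) :
          MvPolynomial (Fin N) ℂ →ₐ[ℂ] Polynomial ℂ).toRingHom
        = MvPolynomial.eval (fun k : Fin N => if (k : ℕ) + 1 = d then x else 0) := by
      ext k
      · simp
      · simp only [AlgHom.toRingHom_eq_coe, RingHom.coe_comp, RingHom.coe_coe, Function.comp_apply,
          MvPolynomial.aeval_X, MvPolynomial.eval_X, Polynomial.coe_evalRingHom]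
        split_ifs <;> simp
    exact RingHom.congr_fun h1 H
  have hne : P * Polynomial.X ≠ 0 := by
    refine mul_ne_zero ?_ Polynomial.X_ne_zero
    intro h0
    have h1 := hev 0
    rw [h0, Polynomial.eval_zero] at h1
    apply hH
    rw [h1]
    simp only [ite_self]
    exact (MvPolynomial.eval_zero' (σ := Fin N) (R := ℂ) ▸ rfl :
      MvPolynomial.constantCoeff H = MvPolynomial.eval (fun _ => 0) H)
  by_contra hcon
  push Not at hcon
  apply hne
  refine Polynomial.funext fun x => ?_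
  rw [Polynomial.eval_mul, Polynomial.eval_X, Polynomial.eval_zero]
  by_cases hx : x = 0
  · rw [hx, mul_zero]
  · rw [hev, hcon x hx, zero_mul]

/-- **The numbers of the secant varieties come from Rees divisors.** -/
theorem fromRees (N d : ℕ) (p a : T → ℕ) (hp : ∀ t, 2 * p t < N)
    (hpos : 0 < ∑ t, a t * (p t - d)) (H : MvPolynomial (Fin N) ℂ)
    (hH : MvPolynomial.constantCoeff H ≠ 0) :
    FromRees (fun t => hankel N (p t)) a H (N - 2 * d - 1 + 1) (∑ t, a t * (p t - d)) := by
  obtain ⟨t0, -, ht0⟩ := Finset.exists_ne_zero_of_sum_ne_zero hpos.ne'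
  have ha : a t0 ≠ 0 := left_ne_zero_of_mul ht0
  have hd : p t0 - d ≠ 0 := right_ne_zero_of_mul ht0
  obtain ⟨lam, hl, hlH⟩ := exists_lam N d H hH
  obtain ⟨E, hk, hm, hR, hcc, -⟩ := chart_exists N d p a hp t0 ha (by omega) lam hl
  have h1 : constantCoeff (MvPolynomial.aeval E.ξ H) ≠ 0 := by
    rw [cc_aeval]
    simp only [hcc]
    exact hlH
  have h2 := fromRees_self E hR h1 (by rw [Chart.mul, hm]; exact hpos)
  rw [Chart.mul, hk, hm] at h2
  exact h2

/-- **The roots of the functional equations of the product of the ideals.** -/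
theorem ideal_roots (N d : ℕ) (p a : T → ℕ) (hp : ∀ t, 2 * p t < N) (b : Polynomial ℂ)
    (H : MvPolynomial (Fin N) ℂ) (hH : MvPolynomial.constantCoeff H ≠ 0)
    (hb : Pool.Agent.W574.LM.IsLocEq H
      (prodFam fun q : Σ t, Fin (a t) => hankel N (p q.1)) b)
    (l : ℕ) (hl : l < ∑ t, a t * (p t - d)) :
    b.eval (-(((N - 2 * d : ℕ) : ℂ) + l) / (∑ t, a t * (p t - d) : ℕ)) = 0 := by
  obtain ⟨t0, -, ht0⟩ := Finset.exists_ne_zero_of_sum_ne_zero (Nat.pos_of_ne_zero
    (Nat.ne_zero_of_lt hl)).ne'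
  have ha : a t0 ≠ 0 := left_ne_zero_of_mul ht0
  have hd : p t0 - d ≠ 0 := right_ne_zero_of_mul ht0
  obtain ⟨lam, hl0, hlH⟩ := exists_lam N d H hH
  obtain ⟨E, hk, hm, hR, hcc, P, U, hU, hP⟩ := chart_exists N d p a hp t0 ha (by omega) lam hl0
  have h1 : constantCoeff (MvPolynomial.aeval E.ξ H) ≠ 0 := by
    rw [cc_aeval]
    simp only [hcc]
    exact hlH
  have h2 := rees_prod a (fun t => hankel N (p t)) b H hb E hR h1 l
    (by rw [Chart.mul, hm]; exact hl) (P ^ l) ⟨U ^ l, by
      rw [map_pow]; exact pow_ne_zero _ hU, by rw [map_pow, hP, mul_pow]⟩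
  rw [Chart.mul, hk, hm] at h2
  have h3 : ((N - 2 * d - 1 : ℕ) : ℂ) + 1 = ((N - 2 * d : ℕ) : ℂ) := by
    have := hp t0
    rw [← Nat.cast_succ]
    congr 1
    omega
  rw [h3] at h2
  exact h2

/-- the minors are not all zero -/
theorem hankel_ne (N p : ℕ) (hp : 2 * p < N) : ∃ j, hankel N p j ≠ 0 := by
  obtain ⟨j0, U, hU, h⟩ := attained_small N p 0 1 (by omega) (le_refl p) one_ne_zero
  refine ⟨j0, fun h0 => ?_⟩
  rw [h0, map_zero, Nat.sub_self, pow_zero, one_mul] at h
  rw [← h, map_zero] at hU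
  exact hU rfl

/-- The numbers `ν`: the codimension `N - 2 d` of the Hankel matrices of rank at most `d`, and `1`
for the strict transforms of the `F_t = 0`. -/
def nuH (N : ℕ) (T : Type) : Fin ((N + 1) / 2) ⊕ T → ℕ := Sum.elim (fun d => N - 2 * d) fun _ => 1

/-- The multiplicities of `∏ t, F_t ^ a t`: `∑ t, a t * (p t - d)` along `E_d`, and `a t` along the
strict transform of `F_t = 0`. -/
def mulH (N : ℕ) (p a : T → ℕ) : Fin ((N + 1) / 2) ⊕ T → ℕ :=
  Sum.elim (fun d => ∑ t, a t * (p t - d)) a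

theorem nuH_eq (N : ℕ) (T : Type) :
    nuH N T = nuR (fun d : Fin ((N + 1) / 2) => N - 2 * d - 1) T := by
  funext x
  rcases x with d | t
  · have := d.2
    change N - 2 * (d : ℕ) = N - 2 * (d : ℕ) - 1 + 1
    omega
  · rfl

theorem mulH_eq (N : ℕ) (p a : T → ℕ) :
    mulH N p a = mulR a (fun (d : Fin ((N + 1) / 2)) t => p t - d) := rfl



/-- the roots of the Bernstein-Sato polynomials of the products of powers of forms -/
theorem pow_roots (N : ℕ) (p a : T → ℕ) (hp : ∀ t, 2 * p t < N) (b : Polynomial ℂ)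
    (hb : PowData a (fun t => hankel N (p t)) b) (x : Fin ((N + 1) / 2) ⊕ T) (l : ℕ)
    (hl : l < mulH N p a x) :
    b.eval (-((nuH N T x : ℂ) + l) / mulH N p a x) = 0 := by
  rcases x with d | t
  · change l < ∑ t, a t * (p t - d) at hl
    obtain ⟨t0, -, ht0⟩ := Finset.exists_ne_zero_of_sum_ne_zero (Nat.pos_of_ne_zero
      (Nat.ne_zero_of_lt hl)).ne'
    obtain ⟨H, hH, hHb⟩ := hb.ideal ⟨t0, left_ne_zero_of_mul ht0⟩
    exact ideal_roots N d p a hp b H hH hHb l hl
  · have h3 := hb.strict t l hl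
    change b.eval (-(((1 : ℕ) : ℂ) + l) / a t) = 0
    rw [Nat.cast_one]
    exact h3

end Chart

end Pool.Agent.R779.HK
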