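import Pool.Agent.R779.HK.Base

set_option autoImplicit false
set_option linter.unusedSectionVars false
set_option linter.unusedVariables false

/-! # Minors of Hankel matrices in the chart -/

namespace Pool.Agent.R779.HK

open MvPowerSeries Pool.Agent.W574.SM Pool.Agent.Y231.RF

/-- The minor of the `p × (N + 1 - p)` Hankel matrix `(x_{i + j})` with the columns `J 0, …,
`J (p - 1)`. -/
noncomputable def hmin (N : ℕ) {p : ℕ} (J : Fin p → Fin (N + 1 - p)) :
    MvPolynomial (Fin N) ℂ :=
  (Matrix.of fun i j : Fin p => (MvPolynomial.X (⟨(i : ℕ) + J j, by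
    have := i.2; have := (J j).2; omega⟩ : Fin N) : MvPolynomial (Fin N) ℂ)).det

/-- The index set of the maximal minors of the `p × (N + 1 - p)` Hankel matrix: the choices of `p`
of the `N + 1 - p` columns. -/
def HIdx (N p : ℕ) : Type := Fin p ↪o Fin (N + 1 - p)

noncomputable instance instFintypeHIdx (N p : ℕ) : Fintype (HIdx N p) :=
  inferInstanceAs (Fintype (Fin p ↪o Fin (N + 1 - p)))

noncomputable instance instDecidableEqHIdx (N p : ℕ) : DecidableEq (HIdx N p) :=
  Classical.decEq _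

/-- The maximal minors of the `p × (N + 1 - p)` Hankel matrix `(x_{i + j})`, `0 ≤ i < p`,
`0 ≤ j ≤ N - p`, in the variables `x_0, …, x_{N - 1}`. -/
noncomputable def hankel (N p : ℕ) (J : HIdx N p) : MvPolynomial (Fin N) ℂ :=
  hmin N fun j => (show Fin p ↪o Fin (N + 1 - p) from J) j

theorem hmin_sort {N p : ℕ} (J : Fin p → Fin (N + 1 - p)) (hJ : Function.Injective J) :
    ∃ (J0 : HIdx N p) (e : ℂ), e * e = 1 ∧ hmin N J = e • hankel N p J0 := by
  obtain ⟨r0, π, hr⟩ := exists_sort J hJ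
  refine ⟨r0, ((Equiv.Perm.sign π : ℤ) : ℂ), ?_, ?_⟩
  · rcases Int.units_eq_one_or (Equiv.Perm.sign π) with h | h <;> rw [h] <;> simp
  · have h1 : (Matrix.of fun i j : Fin p => (MvPolynomial.X (⟨(i : ℕ) + J j, by
        have := i.2; have := (J j).2; omega⟩ : Fin N) : MvPolynomial (Fin N) ℂ))
        = (Matrix.of fun i j : Fin p => (MvPolynomial.X (⟨(i : ℕ) + r0 j, by
        have := i.2; have := (r0 j).2; omega⟩ : Fin N) : MvPolynomial (Fin N) ℂ)).submatrix id π := by
      ext1 i j
      simp only [Matrix.submatrix_apply, Matrix.of_apply, id_eq]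
      simp only [hr j]
    rw [hmin, h1, Matrix.det_permute', Algebra.smul_def]
    simp only [map_intCast]
    rfl

theorem hmin_span {N p : ℕ} (J : Fin p → Fin (N + 1 - p)) :
    ∃ c : HIdx N p → ℂ, hmin N J = ∑ j, c j • hankel N p j := by
  classical
  by_cases hJ : Function.Injective J
  · obtain ⟨J0, e, _, he⟩ := hmin_sort J hJ
    refine ⟨Pi.single J0 e, ?_⟩
    rw [he, Finset.sum_eq_single J0]
    · rw [Pi.single_eq_same]
    · intro j _ hj
      rw [Pi.single_eq_of_ne hj, zero_smul]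
    · intro h; exact absurd (Finset.mem_univ _) h
  · rw [Function.not_injective_iff] at hJ
    obtain ⟨i, j, hij, hne⟩ := hJ
    refine ⟨0, ?_⟩
    simp only [Pi.zero_apply, zero_smul, Finset.sum_const_zero]
    rw [hmin, ← Matrix.det_transpose]
    refine Matrix.det_zero_of_row_eq hne ?_
    funext k
    simp only [Matrix.transpose_apply, Matrix.of_apply, hij]

theorem aeval_hmin {N p : ℕ} (ξ : Fin N → MvPowerSeries (Fin N) ℂ) (J : Fin p → Fin (N + 1 - p)) :
    MvPolynomial.aeval ξ (hmin N J) = (Matrix.of fun i j : Fin p => ξ (⟨(i : ℕ) + J j, by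
      have := i.2; have := (J j).2; omega⟩ : Fin N)).det := by
  rw [hmin, AlgHom.map_det]
  congr 1
  ext1 i j
  rw [AlgHom.mapMatrix_apply, Matrix.map_apply, Matrix.of_apply, Matrix.of_apply,
    MvPolynomial.aeval_X]

section Chart

variable (N d c : ℕ) (lam : ℂ) (hc : 2 * d + c < N)

/-- the matrix which gives the minor, divided by the power of `z` -/
noncomputable def MJ {p : ℕ} (J : Fin p → ℕ) :
    Matrix (Fin d ⊕ Fin p) (Fin d ⊕ Fin p) (MvPowerSeries (Fin N) ℂ) :=
  Matrix.fromBlocks ((X (⟨2 * d + c, hc⟩ : Fin N) : MvPowerSeries (Fin N) ℂ) • 1)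
    (Matrix.of fun (m : Fin d) (j : Fin p) => Rk N d lam (m + J j))
    (-(Matrix.of fun (i : Fin p) (m : Fin d) => Ak N d lam m i))
    (Matrix.of fun (i j : Fin p) => wS N d c (i + J j))

theorem minor_eq {q p : ℕ} (hp : p = d + q) (J : Fin p → Fin (N + 1 - p)) :
    MvPolynomial.aeval (xi N d c lam hc) (hmin N J)
      = X (⟨2 * d + c, hc⟩ : Fin N) ^ q * (MJ N d c lam hc fun j => (J j : ℕ)).det := by
  rw [aeval_hmin]
  have h1 : (Matrix.of fun i j : Fin p => xi N d c lam hc (⟨(i : ℕ) + J j, by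
      have := i.2; have := (J j).2; omega⟩ : Fin N))
      = (Matrix.of fun (i : Fin p) (m : Fin d) => Ak N d lam m i) *
        (Matrix.of fun (m : Fin d) (j : Fin p) => Rk N d lam (m + J j))
        + (X (⟨2 * d + c, hc⟩ : Fin N) : MvPowerSeries (Fin N) ℂ) •
          (Matrix.of fun (i j : Fin p) => wS N d c (i + J j)) := by
    ext1 i j
    rw [Matrix.add_apply, Matrix.smul_apply, Matrix.mul_apply, Matrix.of_apply, Matrix.of_apply,
      smul_eq_mul, xi, Rk_factor]
    rfl
  have h2 := det_rank_add (Matrix.of fun (i : Fin p) (m : Fin d) => Ak N d lam m i)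
    (Matrix.of fun (m : Fin d) (j : Fin p) => Rk N d lam (m + J j))
    (Matrix.of fun (i j : Fin p) => wS N d c (i + J j)) (X (⟨2 * d + c, hc⟩ : Fin N))
  have h3 : (X (⟨2 * d + c, hc⟩ : Fin N) : MvPowerSeries (Fin N) ℂ) ^ p
      = X (⟨2 * d + c, hc⟩ : Fin N) ^ d * X (⟨2 * d + c, hc⟩ : Fin N) ^ q := by
    rw [hp, pow_add]
  rw [← h1, Fintype.card_fin, Fintype.card_fin, h3, mul_assoc] at h2
  exact mul_left_cancel₀ (pow_ne_zero _ (X_ne0 _)) h2

/-- the columns of the minor which generates the ideal -/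
def J0 (j : ℕ) : ℕ := if j < d then d - 1 - j else 2 * d + c - j

variable {p : ℕ} (hN : 2 * d ≤ N) (hl : lam ≠ 0) (hpc : p ≤ d + c) (hdp : d ≤ p)

theorem cc_upper (m : Fin d) (j : ℕ) (hj : j < p) (hpc : p ≤ d + c) (hN : 2 * d ≤ N) :
    constantCoeff (Rk N d lam (m + J0 d c j)) = if j = m then lam else 0 := by
  have := m.2
  rw [cc_Rk N d lam hN]
  unfold J0
  by_cases h1 : j < d
  · rw [if_pos h1]
    by_cases h2 : j = m
    · rw [if_pos h2, if_pos (by omega)]
    · rw [if_neg h2, if_neg (by omega)]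
  · rw [if_neg h1, if_neg (by omega), if_neg (by omega)]

theorem cc_lower (i j : ℕ) (hi : i < p) (hj : j < p) (hpc : p ≤ d + c) :
    constantCoeff (wS N d c (i + J0 d c j)) = if i = j ∧ d ≤ i then 1 else 0 := by
  rw [cc_wS]
  unfold J0
  by_cases h1 : j < d
  · rw [if_pos h1, if_neg (by omega), if_neg (by omega)]
  · rw [if_neg h1]
    by_cases h2 : i = j
    · rw [if_pos (by omega), if_pos (by omega)]
    · rw [if_neg (by omega), if_neg (by omega)]

/-- the matrix of the minor `J0` is invertible at the base point -/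
theorem cc_det_ne (hpc : p ≤ d + c) (hdp : d ≤ p) (hN : 2 * d ≤ N) (hl : lam ≠ 0) :
    constantCoeff (MJ N d c lam hc (p := p) fun j => J0 d c j).det ≠ 0 := by
  rw [RingHom.map_det]
  intro h0
  obtain ⟨x, hx, hx0⟩ := Matrix.exists_mulVec_eq_zero_iff.2 h0
  apply hx
  have hrow : ∀ r, ∑ y, constantCoeff (MJ N d c lam hc (p := p) (fun j => J0 d c j) r y) * x y
      = 0 := fun r => congrFun hx0 r
  have hinr : ∀ i : Fin p, x (Sum.inr i) = 0 := by
    intro i
    by_cases hi : (i : ℕ) < d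
    · have h1 := hrow (Sum.inl ⟨i, hi⟩)
      rw [Fintype.sum_sum_type] at h1
      simp only [MJ, Matrix.fromBlocks_apply₁₁, Matrix.fromBlocks_apply₁₂, Matrix.smul_apply,
        smul_eq_mul, map_mul, constantCoeff_X, zero_mul, Finset.sum_const_zero, zero_add,
        Matrix.of_apply] at h1
      rw [Finset.sum_eq_single i] at h1
      · rw [cc_upper N d c lam ⟨i, hi⟩ i i.2 hpc hN, if_pos rfl] at h1
        exact (mul_eq_zero.1 h1).resolve_left hl
      · intro j _ hj
        rw [cc_upper N d c lam ⟨i, hi⟩ j j.2 hpc hN, if_neg, zero_mul]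
        intro h2
        exact hj (Fin.ext h2)
      · intro h2; exact absurd (Finset.mem_univ _) h2
    · have h1 := hrow (Sum.inr i)
      rw [Fintype.sum_sum_type] at h1
      simp only [MJ, Matrix.fromBlocks_apply₂₁, Matrix.fromBlocks_apply₂₂, Matrix.neg_apply,
        Matrix.of_apply, map_neg] at h1
      rw [Finset.sum_eq_zero, zero_add, Finset.sum_eq_single i] at h1
      · rw [cc_lower N d c i i i.2 i.2 hpc, if_pos ⟨rfl, by omega⟩, one_mul] at h1
        exact h1
      · intro j _ hj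
        rw [cc_lower N d c i j i.2 j.2 hpc, if_neg, zero_mul]
        rintro ⟨h2, _⟩
        exact hj (Fin.ext h2.symm)
      · intro h2; exact absurd (Finset.mem_univ _) h2
      · intro m _
        rw [cc_Ak N d lam hN, if_neg (by have := m.2; omega), neg_zero, zero_mul]
  funext r
  rcases r with m | i
  · have hm := m.2
    have h1 := hrow (Sum.inr ⟨m, by omega⟩)
    rw [Fintype.sum_sum_type] at h1
    simp only [hinr, mul_zero, Finset.sum_const_zero, add_zero, MJ, Matrix.fromBlocks_apply₂₁,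
      Matrix.neg_apply, Matrix.of_apply, map_neg] at h1
    rw [Finset.sum_eq_single m] at h1
    · rw [cc_Ak N d lam hN, if_pos rfl] at h1
      have h2 : -(1 : ℂ) * x (Sum.inl m) = 0 := h1
      rw [neg_one_mul, neg_eq_zero] at h2
      exact h2
    · intro j _ hj
      rw [cc_Ak N d lam hN, if_neg, neg_zero, zero_mul]
      intro h2
      exact hj (Fin.ext h2.symm)
    · intro h2; exact absurd (Finset.mem_univ _) h2
  · exact hinr i

/-- the new column -/
noncomputable def vcol (p j' : ℕ) : Fin d ⊕ Fin p → MvPowerSeries (Fin N) ℂ :=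
  Sum.elim (fun m => Rk N d lam (m + j')) fun i => wS N d c (i + j')

theorem MJ_update (J : Fin p → ℕ) (a : Fin p) (j' : ℕ) :
    MJ N d c lam hc (Function.update J a j')
      = (MJ N d c lam hc J).updateCol (Sum.inr a) (vcol N d c lam p j') := by
  ext1 r s
  rw [Matrix.updateCol_apply]
  rcases s with m | j
  · rw [if_neg (by simp)]
    rcases r with m' | i <;> rfl
  · by_cases h : j = a
    · subst h
      rw [if_pos rfl]
      rcases r with m' | i
      · simp [MJ, vcol]
      · simp [MJ, vcol]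
    · rw [if_neg (by simpa using h)]
      rcases r with m' | i
      · simp [MJ, Function.update_of_ne h]
      · simp [MJ, Function.update_of_ne h]

/-- the quotient of two minors -/
noncomputable def yq (p j' : ℕ) : Fin d ⊕ Fin p → MvPowerSeries (Fin N) ℂ :=
  (MJ N d c lam hc (p := p) fun j => J0 d c j)⁻¹.mulVec (vcol N d c lam p j')

theorem MJ_unit (hpc : p ≤ d + c) (hdp : d ≤ p) (hN : 2 * d ≤ N) (hl : lam ≠ 0) :
    IsUnit (MJ N d c lam hc (p := p) fun j => J0 d c j).det := by
  rw [MvPowerSeries.isUnit_iff_constantCoeff]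
  exact isUnit_iff_ne_zero.2 (cc_det_ne N d c lam hc hpc hdp hN hl)

theorem yq_quot (a : Fin p) (j' : ℕ) (hpc : p ≤ d + c) (hdp : d ≤ p) (hN : 2 * d ≤ N)
    (hl : lam ≠ 0) :
    (MJ N d c lam hc (p := p) (Function.update (fun j => J0 d c j) a j')).det
      = (MJ N d c lam hc (p := p) fun j => J0 d c j).det * yq N d c lam hc p j' (Sum.inr a) := by
  rw [MJ_update, ← Matrix.cramer_apply]
  have h1 := Matrix.det_smul_inv_mulVec_eq_cramer (MJ N d c lam hc (p := p) fun j => J0 d c j)
    (vcol N d c lam p j') (MJ_unit N d c lam hc hpc hdp hN hl)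
  rw [← h1]
  rfl

theorem MJ_yq (j' : ℕ) (hpc : p ≤ d + c) (hdp : d ≤ p) (hN : 2 * d ≤ N) (hl : lam ≠ 0) :
    (MJ N d c lam hc (p := p) fun j => J0 d c j).mulVec (yq N d c lam hc p j')
      = vcol N d c lam p j' := by
  rw [yq, Matrix.mulVec_mulVec, Matrix.mul_nonsing_inv _ (MJ_unit N d c lam hc hpc hdp hN hl),
    Matrix.one_mulVec]

theorem yq_row (j' : ℕ) (hpc : p ≤ d + c) (hdp : d ≤ p) (hN : 2 * d ≤ N) (hl : lam ≠ 0)
    (r : Fin d ⊕ Fin p) :
    ∑ y, MJ N d c lam hc (p := p) (fun j => J0 d c j) r y * yq N d c lam hc p j' y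
      = vcol N d c lam p j' r :=
  congrFun (MJ_yq N d c lam hc j' hpc hdp hN hl) r

/-- the constant terms of the quotients -/
theorem cc_yq (j' : ℕ) (hpc : p ≤ d + c) (hdp : d ≤ p) (hN : 2 * d ≤ N) (hl : lam ≠ 0)
    (hj' : d ≤ j') (hj2 : ∀ i, d ≤ i → i < p → i + j' ≠ 2 * d + c) (i : Fin p) :
    constantCoeff (yq N d c lam hc p j' (Sum.inr i)) = 0 := by
  by_cases hi : (i : ℕ) < d
  · have h1 := congrArg constantCoeff (yq_row N d c lam hc j' hpc hdp hN hl (Sum.inl ⟨i, hi⟩))
    rw [Fintype.sum_sum_type] at h1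
    simp only [MJ, Matrix.fromBlocks_apply₁₁, Matrix.fromBlocks_apply₁₂, Matrix.smul_apply,
      smul_eq_mul, map_mul, constantCoeff_X, zero_mul, Finset.sum_const_zero, zero_add,
      Matrix.of_apply, map_add, map_sum, vcol, Sum.elim_inl] at h1
    rw [Finset.sum_eq_single i] at h1
    · rw [cc_upper N d c lam ⟨i, hi⟩ i i.2 hpc hN, if_pos rfl, cc_Rk N d lam hN,
        if_neg (by omega)] at h1
      exact (mul_eq_zero.1 h1).resolve_left hl
    · intro j _ hj
      rw [cc_upper N d c lam ⟨i, hi⟩ j j.2 hpc hN, if_neg, zero_mul]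
      intro h2
      exact hj (Fin.ext h2)
    · intro h2; exact absurd (Finset.mem_univ _) h2
  · have h1 := congrArg constantCoeff (yq_row N d c lam hc j' hpc hdp hN hl (Sum.inr i))
    rw [Fintype.sum_sum_type] at h1
    simp only [MJ, Matrix.fromBlocks_apply₂₁, Matrix.fromBlocks_apply₂₂, Matrix.neg_apply,
      Matrix.of_apply, map_neg, map_add, map_sum, map_mul, vcol, Sum.elim_inr] at h1
    rw [Finset.sum_eq_zero, zero_add, Finset.sum_eq_single i] at h1
    · rw [cc_lower N d c i i i.2 i.2 hpc, if_pos ⟨rfl, by omega⟩, one_mul, cc_wS,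
        if_neg (hj2 i (by omega) i.2)] at h1
      exact h1
    · intro j _ hj
      rw [cc_lower N d c i j i.2 j.2 hpc, if_neg, zero_mul]
      rintro ⟨h2, _⟩
      exact hj (Fin.ext h2.symm)
    · intro h2; exact absurd (Finset.mem_univ _) h2
    · intro m _
      rw [cc_Ak N d lam hN, if_neg (by have := m.2; omega), neg_zero, zero_mul]

/-- the linear terms of the quotients -/
theorem der_yq (j' : ℕ) (hpc : p ≤ d + c) (hdp : d ≤ p) (hN : 2 * d ≤ N) (hl : lam ≠ 0)
    (hj' : d ≤ j') (hj2 : ∀ i, d ≤ i → i < p → i + j' ≠ 2 * d + c) (a : Fin p) (ha : d ≤ (a : ℕ))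
    (t : Fin N) (ht : 2 * d ≤ (t : ℕ)) (htz : (t : ℕ) ≠ 2 * d + c) :
    constantCoeff (pderiv ℂ t (yq N d c lam hc p j' (Sum.inr a)))
      = if (a : ℕ) + j' = t then 1 else 0 := by
  have h1 := congrArg (fun f => constantCoeff (pderiv ℂ t f))
    (yq_row N d c lam hc j' hpc hdp hN hl (Sum.inr a))
  simp only [Fintype.sum_sum_type, map_add, map_sum, Derivation.leibniz, smul_eq_mul, map_mul] at h1
  simp only [MJ, Matrix.fromBlocks_apply₂₁, Matrix.fromBlocks_apply₂₂, Matrix.neg_apply,
    Matrix.of_apply, map_neg, vcol, Sum.elim_inr, der_Ak N d lam hN hl t ht, neg_zero, mul_zero,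
    map_zero, add_zero, cc_yq N d c lam hc j' hpc hdp hN hl hj' hj2, zero_mul] at h1
  rw [Finset.sum_eq_zero, zero_add, Finset.sum_eq_single a] at h1
  · rw [cc_lower N d c a a a.2 a.2 hpc, if_pos ⟨rfl, ha⟩, one_mul, der_wS N d c t ht htz] at h1
    rw [h1]
    split_ifs <;> simp
  · intro j _ hj
    rw [cc_lower N d c a j a.2 j.2 hpc, if_neg, zero_mul]
    rintro ⟨h2, _⟩
    exact hj (Fin.ext h2.symm)
  · intro h2; exact absurd (Finset.mem_univ _) h2
  · intro m _
    rw [cc_Ak N d lam hN, if_neg (by have := m.2; omega), neg_zero, zero_mul]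

end Chart

end Pool.Agent.R779.HK
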