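import Mathlib

set_option autoImplicit false

/-! # Linear recurrences -/

namespace Pool.Agent.R779.HK

section Seq

variable {R : Type} [CommRing R] {d : ℕ}

/-- The sequence with the initial values `s 0, …, s (d - 1)` and the recurrence
`r (d + k) = ∑ m, q m * r (k + m)`. -/
noncomputable def rseq (q : Fin d → R) (s : ℕ → R) : ℕ → R
  | k => if _h : k < d then s k else ∑ m : Fin d, q m * rseq q s (k - d + m)
  termination_by k => k
  decreasing_by have := m.2; omega

theorem rseq_lt (q : Fin d → R) (s : ℕ → R) {k : ℕ} (h : k < d) : rseq q s k = s k := by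
  rw [rseq, dif_pos h]

theorem rseq_add (q : Fin d → R) (s : ℕ → R) (k : ℕ) :
    rseq q s (d + k) = ∑ m : Fin d, q m * rseq q s (k + m) := by
  rw [rseq, dif_neg (by omega)]
  simp only [Nat.add_sub_cancel_left]

/-- the delta sequences -/
noncomputable def aseq (q : Fin d → R) (m : Fin d) : ℕ → R :=
  rseq q fun n => if n = m then 1 else 0

theorem rseq_factor (q : Fin d → R) (s : ℕ → R) (i j : ℕ) :
    rseq q s (i + j) = ∑ m : Fin d, aseq q m i * rseq q s (m + j) := by
  induction i using Nat.strong_induction_on with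
  | _ i ih =>
    rcases lt_or_ge i d with h | h
    · rw [Finset.sum_eq_single (⟨i, h⟩ : Fin d)]
      · rw [aseq, rseq_lt _ _ h, if_pos rfl, one_mul]
      · intro m _ hm
        rw [aseq, rseq_lt _ _ h, if_neg, zero_mul]
        intro h1
        exact hm (Fin.ext h1.symm)
      · intro h1; exact absurd (Finset.mem_univ _) h1
    · obtain ⟨k, rfl⟩ := Nat.exists_eq_add_of_le h
      rw [add_assoc, rseq_add]
      have h1 : ∀ m : Fin d, aseq q m (d + k) = ∑ n : Fin d, q n * aseq q m (k + n) := by
        intro m
        rw [aseq, rseq_add]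
      simp only [h1, Finset.sum_mul]
      rw [Finset.sum_comm]
      refine Finset.sum_congr rfl fun n _ => ?_
      rw [show k + j + (n : ℕ) = (k + n) + j by omega, ih (k + n) (by have := n.2; omega),
        Finset.mul_sum]
      refine Finset.sum_congr rfl fun m _ => ?_
      ring

theorem rseq_init (q : Fin d → R) (s : ℕ → R)
    (h : ∀ i : Fin d, ∑ m : Fin d, q m * s (i + m) = s (d + i)) {k : ℕ} (hk : k < 2 * d) :
    rseq q s k = s k := by
  induction k using Nat.strong_induction_on with
  | _ k ih =>
    rcases lt_or_ge k d with h1 | h1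
    · exact rseq_lt _ _ h1
    · obtain ⟨n, rfl⟩ := Nat.exists_eq_add_of_le h1
      rw [rseq_add, ← h ⟨n, by omega⟩]
      refine Finset.sum_congr rfl fun m _ => ?_
      have := m.2
      rw [ih (n + m) (by omega) (by omega)]

theorem map_rseq {S : Type} [CommRing S] (φ : R →+* S) (q : Fin d → R) (hq : ∀ m, φ (q m) = 0)
    (s : ℕ → R) (k : ℕ) : φ (rseq q s k) = if k < d then φ (s k) else 0 := by
  split_ifs with h
  · rw [rseq_lt _ _ h]
  · obtain ⟨n, rfl⟩ := Nat.exists_eq_add_of_le (not_lt.1 h)
    rw [rseq_add, map_sum]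
    refine Finset.sum_eq_zero fun m _ => ?_
    rw [map_mul, hq, zero_mul]

theorem der_rseq {A : Type} [CommRing A] [Algebra A R] (D : Derivation A R R) (q : Fin d → R)
    (hq : ∀ m, D (q m) = 0) (s : ℕ → R) (hs : ∀ k, k < d → D (s k) = 0) (k : ℕ) :
    D (rseq q s k) = 0 := by
  induction k using Nat.strong_induction_on with
  | _ k ih =>
    rcases lt_or_ge k d with h | h
    · rw [rseq_lt _ _ h, hs _ h]
    · obtain ⟨n, rfl⟩ := Nat.exists_eq_add_of_le h
      rw [rseq_add, map_sum]
      refine Finset.sum_eq_zero fun m _ => ?_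
      have := m.2
      rw [Derivation.leibniz, hq, ih (n + m) (by omega), smul_zero, smul_zero, add_zero]

end Seq

/-- upper triangular matrices, in an arbitrary order -/
theorem det_upper {σ R : Type} [Fintype σ] [DecidableEq σ] [CommRing R] (M : Matrix σ σ R)
    (b : σ → ℕ) (hb : Function.Injective b) (h : ∀ i j, b j < b i → M i j = 0) :
    M.det = ∏ i, M i i := by
  classical
  letI : LinearOrder σ := LinearOrder.lift' b hb
  have h1 : M.BlockTriangular id := by
    intro i j hij
    exact h i j hij
  have h2 := Matrix.det_of_upperTriangular h1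
  convert h2

end Pool.Agent.R779.HK
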