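import Pool.Agent.R779.HK.Main
import Pool.Agent.Y231.RF.Tup

set_option autoImplicit false
set_option linter.unusedSectionVars false
set_option linter.unusedVariables false

/-! # Hankel determinantal ideals: topological zeta functions -/

namespace Pool.Agent.R779.HK

open Pool.Agent.W574.SM Pool.Agent.Y231.RF Pool.Agent.Y228.RR Pool.Agent.TH192.DT
  Pool.Agent.H628R4.TP Pool.Agent.W574.HS Pool.Agent.W574.LM

variable {T : Type} [Fintype T] [DecidableEq T]

theorem nuH_pos (N : ℕ) (T : Type) (x : Fin ((N + 1) / 2) ⊕ T) : 0 < nuH N T x := by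
  rw [nuH_eq]
  exact nuR_pos _ x

theorem global_roots (N : ℕ) (p a : T → ℕ) (hp : ∀ t, 2 * p t < N) (b : Polynomial ℂ)
    (hb : IsBFunction (powProd a fun t => hankel N (p t)) b) (x : Fin ((N + 1) / 2) ⊕ T) (l : ℕ)
    (hl : l < mulH N p a x) : b.eval (-((nuH N T x : ℂ) + l) / mulH N p a x) = 0 :=
  pow_roots N p a hp b (powData_global a _ (fun t => hankel_ne N (p t) (hp t)) b hb) x l hl

theorem local_roots (N : ℕ) (p a : T → ℕ) (hp : ∀ t, 2 * p t < N) (b : Polynomial ℂ)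
    (hb : IsLocalBFunction (powProd a fun t => hankel N (p t)) b) (x : Fin ((N + 1) / 2) ⊕ T)
    (l : ℕ) (hl : l < mulH N p a x) : b.eval (-((nuH N T x : ℂ) + l) / mulH N p a x) = 0 :=
  pow_roots N p a hp b (powData_local a _ (fun t => hankel_ne N (p t) (hp t)) b hb) x l hl

/-- The vectors of multiplicities of the tuple `(F_t)`: `max (p t - d, 0)` along `E_d`, and the unit
vectors along the strict transforms. -/
def vecH (N : ℕ) (p : T → ℕ) : Fin ((N + 1) / 2) ⊕ T → T → ℕ :=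
  mulT fun (d : Fin ((N + 1) / 2)) t => p t - d

theorem mulH_vec (N : ℕ) (p n : T → ℕ) (x : Fin ((N + 1) / 2) ⊕ T) :
    mulH N p n x = ∑ t, n t * vecH N p x t := by
  rcases x with i | t
  · rfl
  · change n t = ∑ t', n t' * (Pi.single t 1 : T → ℕ) t'
    rw [Finset.sum_eq_single t]
    · rw [Pi.single_eq_same, mul_one]
    · intro t' _ ht'
      rw [Pi.single_eq_of_ne ht', mul_zero]
    · intro h; exact absurd (Finset.mem_univ _) h

theorem tuple (N : ℕ) (p : T → ℕ) (hp : ∀ t, 2 * p t < N)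
    (χ : Finset (Fin ((N + 1) / 2) ⊕ T) → ℤ) (z : T → ℂ)
    (hz : z ∈ PolarLocus (topM (nuH N T) (vecH N p) χ)) :
    ∃ x, ∑ t, (vecH N p x t : ℂ) * z t + (nuH N T x : ℂ) = 0 ∧
      ∀ n : T → ℕ, (∀ t, 0 < n t) → 0 < ∑ t, n t * vecH N p x t ∧
        ∀ b : Polynomial ℂ, IsBFunction (powProd n fun t => hankel N (p t)) b →
          ∀ l : ℕ, l < ∑ t, n t * vecH N p x t →
            b.eval (-((nuH N T x : ℂ) + l) / (∑ t, n t * vecH N p x t : ℕ)) = 0 := by
  obtain ⟨x, hx⟩ := polar_topM _ (nuH_pos N T) _ χ z hz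
  refine ⟨x, hx, fun n hn => ⟨?_, fun b hb l hl => ?_⟩⟩
  · rcases Nat.eq_zero_or_pos (∑ t, n t * vecH N p x t) with h0 | h0
    · exfalso
      have h1 : ∀ t, vecH N p x t = 0 := fun t =>
        (Nat.mul_eq_zero.1 ((Finset.sum_eq_zero_iff.1 h0) t (Finset.mem_univ t))).resolve_left
          (hn t).ne'
      have h2 : ∑ t, (vecH N p x t : ℂ) * z t = 0 :=
        Finset.sum_eq_zero fun t _ => by rw [h1 t, Nat.cast_zero, zero_mul]
      rw [h2, zero_add] at hx
      exact (nuH_pos N T x).ne' (Nat.cast_eq_zero.1 hx)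
    · exact h0
  · rw [← mulH_vec] at hl ⊢
    exact global_roots N p n hp b hb x l hl

end Pool.Agent.R779.HK
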